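import Pool.Agent.W2helper45.UC.Stm

/-! # Project UC, piece GAP -/

set_option autoImplicit false

namespace Pool.Agent.W2helper95.UC

open Pool.Agent.W2helper45.UC

/-- adding a disjoint set is injective on the subsets of the complement -/
theorem inj_union {n : ℕ} (U : Finset (Fin n)) {S T : Finset (Fin n)} (hS : Disjoint U S)
    (hT : Disjoint U T) (h : U ∪ S = U ∪ T) : S = T := by
  have h1 : (U ∪ S) \ U = S := by
    rw [Finset.union_sdiff_left, Finset.sdiff_eq_self_of_disjoint hS.symm]
  have h2 : (U ∪ T) \ U = T := by
    rw [Finset.union_sdiff_left, Finset.sdiff_eq_self_of_disjoint hT.symm]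
  rw [← h1, ← h2, h]

theorem p_gap : P_GAP := by
  intro n U G k hUG
  have hcard : G.card - U.card = (G \ U).card := (Finset.card_sdiff_of_subset hUG.1).symm
  refine ⟨?_, ?_⟩
  · by_cases hk : k + 1 < G.card - U.card
    · rw [if_pos hk, hcard, ← Finset.card_powersetCard]
      symm
      refine Finset.card_bij (fun S _ => U ∪ S) ?_ ?_ ?_
      · intro S hS
        rw [Finset.mem_powersetCard] at hS
        have hd : Disjoint U S := (Finset.disjoint_sdiff (s := U) (t := G)).mono_right hS.1
        have hc : (U ∪ S).card = U.card + (k + 1) := by
          rw [Finset.card_union_of_disjoint hd, hS.2]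
        have hsub : U ∪ S ⊆ G := Finset.union_subset hUG.1 (hS.1.trans Finset.sdiff_subset)
        rw [Finset.mem_filter]
        refine ⟨Finset.mem_univ _, ?_, ?_, hc⟩
        · refine Finset.ssubset_iff_subset_ne.2 ⟨Finset.subset_union_left, ?_⟩
          intro he
          rw [← he] at hc
          omega
        · refine Finset.ssubset_iff_subset_ne.2 ⟨hsub, ?_⟩
          intro he
          rw [he] at hc
          omega
      · intro S hS T hT h
        rw [Finset.mem_powersetCard] at hS hT
        exact inj_union U ((Finset.disjoint_sdiff (s := U) (t := G)).mono_right hS.1)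
          ((Finset.disjoint_sdiff (s := U) (t := G)).mono_right hT.1) h
      · intro F hF
        rw [Finset.mem_filter] at hF
        obtain ⟨-, h1, h2, h3⟩ := hF
        refine ⟨F \ U, ?_, ?_⟩
        · rw [Finset.mem_powersetCard]
          refine ⟨Finset.sdiff_subset_sdiff h2.1 (Finset.Subset.refl _), ?_⟩
          rw [Finset.card_sdiff_of_subset h1.1, h3]
          omega
        · exact Finset.union_sdiff_of_subset h1.1
    · rw [if_neg hk, Finset.card_eq_zero, Finset.filter_eq_empty_iff]
      rintro F - ⟨-, h2, h3⟩
      have := Finset.card_lt_card h2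
      omega
  · intro i hiG hiU
    by_cases hk : k + 1 < G.card - U.card
    · have hi : i ∈ G \ U := Finset.mem_sdiff.2 ⟨hiG, hiU⟩
      have hcard2 : G.card - U.card - 1 = ((G \ U).erase i).card := by
        rw [Finset.card_erase_of_mem hi, hcard]
      have hdU : Disjoint U ((G \ U).erase i) :=
        (Finset.disjoint_sdiff (s := U) (t := G)).mono_right (Finset.erase_subset _ _)
      have hdi : ∀ S ⊆ (G \ U).erase i, Disjoint (insert i U) S := by
        intro S hS
        rw [Finset.disjoint_insert_left]
        exact ⟨fun h => Finset.notMem_erase i _ (hS h), hdU.mono_right hS⟩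
      have hci : (insert i U).card = U.card + 1 := Finset.card_insert_of_notMem hiU
      rw [if_pos hk, hcard2, ← Finset.card_powersetCard]
      symm
      refine Finset.card_bij (fun S _ => insert i U ∪ S) ?_ ?_ ?_
      · intro S hS
        rw [Finset.mem_powersetCard] at hS
        have hc : (insert i U ∪ S).card = U.card + (k + 1) := by
          rw [Finset.card_union_of_disjoint (hdi S hS.1), hS.2, hci]
          omega
        have hsub : insert i U ∪ S ⊆ G := Finset.union_subset
          (Finset.insert_subset hiG hUG.1) (hS.1.trans ((Finset.erase_subset _ _).trans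
            Finset.sdiff_subset))
        rw [Finset.mem_filter]
        refine ⟨Finset.mem_univ _, ?_, ?_, ?_, hc⟩
        · refine Finset.ssubset_iff_subset_ne.2
            ⟨(Finset.subset_insert _ _).trans Finset.subset_union_left, ?_⟩
          intro he
          rw [← he] at hc
          omega
        · refine Finset.ssubset_iff_subset_ne.2 ⟨hsub, ?_⟩
          intro he
          rw [he] at hc
          omega
        · exact Finset.mem_union_left _ (Finset.mem_insert_self _ _)
      · intro S hS T hT h
        rw [Finset.mem_powersetCard] at hS hT
        exact inj_union (insert i U) (hdi S hS.1) (hdi T hT.1) h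
      · intro F hF
        rw [Finset.mem_filter] at hF
        obtain ⟨-, h1, h2, hiF, h3⟩ := hF
        have hsub : insert i U ⊆ F := Finset.insert_subset hiF h1.1
        refine ⟨F \ insert i U, ?_, ?_⟩
        · rw [Finset.mem_powersetCard]
          refine ⟨?_, ?_⟩
          · intro x hx
            rw [Finset.mem_sdiff, Finset.mem_insert, not_or] at hx
            exact Finset.mem_erase.2 ⟨hx.2.1, Finset.mem_sdiff.2 ⟨h2.1 hx.1, hx.2.2⟩⟩
          · rw [Finset.card_sdiff_of_subset hsub, h3, hci]
            omega
        · exact Finset.union_sdiff_of_subset hsub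
    · rw [if_neg hk, Finset.card_eq_zero, Finset.filter_eq_empty_iff]
      rintro F - ⟨-, h2, -, h3⟩
      have := Finset.card_lt_card h2
      omega

end Pool.Agent.W2helper95.UC
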