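import Pool.Agent.W2helper45.UC.Stm

/-! # Project UC, piece INS -/

set_option autoImplicit false

namespace Pool.Agent.W2helper95.UC

open Pool.Agent.W2helper45.UC

variable {n : ℕ}

theorem add_single_apply_ne {m : Ex n} {F H : Finset (Fin n)} (h : H ≠ F) :
    (m + Finsupp.single F 1 : Ex n) H = m H := by
  rw [Finsupp.add_apply, Finsupp.single_eq_of_ne h, add_zero]

theorem add_single_apply_self {m : Ex n} {F : Finset (Fin n)} :
    (m + Finsupp.single F 1 : Ex n) F = m F + 1 := by
  rw [Finsupp.add_apply, Finsupp.single_eq_same]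

theorem mem_support_add {m : Ex n} {F H : Finset (Fin n)} :
    H ∈ (m + Finsupp.single F 1).support ↔ H ∈ m.support ∨ H = F := by
  rw [Finsupp.mem_support_iff, Finsupp.mem_support_iff]
  by_cases h : H = F
  · subst h
    rw [add_single_apply_self]
    simp
  · rw [add_single_apply_ne h]
    simp [h]

theorem ab_sub {m : Ex n} {U F : Finset (Fin n)} (hF : F ⊆ U) :
    ab (m + Finsupp.single F 1) U = ab m U := by
  ext H
  rw [mem_ab, mem_ab, mem_support_add]
  constructor
  · rintro ⟨h1 | h1, h2, h3⟩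
    · exact ⟨h1, h2, h3⟩
    · subst h1
      exact absurd hF h2.2
  · rintro ⟨h1, h2, h3⟩
    exact ⟨Or.inl h1, h2, h3⟩

theorem D_pos {m : Ex n} {U : Finset (Fin n)} {b : ℤ}
    (h : (ab m U).Nonempty ∧ U ⊂ (ab m U).inf id) :
    D m U b = ch (((ab m U).inf id).card - U.card - 1) b *
      ((-1) ^ (m ((ab m U).inf id) - 1) *
        ch (m ((ab m U).inf id) - 1)
          (b + m ((ab m U).inf id) - (((ab m U).inf id).card - U.card))) *
      D m ((ab m U).inf id) (b + m ((ab m U).inf id) - (((ab m U).inf id).card - U.card)) := by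
  rw [D, dif_pos h]

theorem D_neg {m : Ex n} {U : Finset (Fin n)} {b : ℤ}
    (h : ¬ ((ab m U).Nonempty ∧ U ⊂ (ab m U).inf id)) :
    D m U b = (-1) ^ m Finset.univ * ch (n - U.card - 1) b := by
  rw [D, dif_neg h]

/-- only the part above `U` matters -/
theorem D_sub (m : Ex n) (F : Finset (Fin n)) (hF : F ≠ Finset.univ) :
    ∀ (k : ℕ) (U : Finset (Fin n)) (b : ℤ), n - U.card = k → F ⊆ U →
      D (m + Finsupp.single F 1) U b = D m U b := by
  intro k
  induction k using Nat.strong_induction_on with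
  | _ k ih =>
    intro U b hk hFU
    have hab : ab (m + Finsupp.single F 1) U = ab m U := ab_sub hFU
    by_cases h : (ab m U).Nonempty ∧ U ⊂ (ab m U).inf id
    · have hne : (ab m U).inf id ≠ F := by
        intro he
        rw [he] at h
        exact h.2.2 hFU
      have h1 := Finset.card_lt_card h.2
      have h2 := Finset.card_le_univ ((ab m U).inf id)
      rw [Fintype.card_fin] at h2
      have hab' := h
      rw [← hab] at hab'
      rw [D_pos h, D_pos hab', hab, add_single_apply_ne hne,
        ih (n - ((ab m U).inf id).card) (by omega) ((ab m U).inf id) _ rfl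
          (hFU.trans h.2.1)]
    · have hab' := h
      rw [← hab] at hab'
      rw [D_neg h, D_neg hab', add_single_apply_ne hF.symm]

theorem ch_zero (k : ℕ) : ch k 0 = 1 := by
  simp [ch]

theorem ch_zero_left (k : ℤ) : ch 0 k = if k = 0 then 1 else 0 := by
  unfold ch
  by_cases h : k = 0
  · subst h
    simp
  · by_cases h1 : 0 ≤ k
    · rw [if_pos h1, if_neg h]
      have h2 : k.toNat ≠ 0 := by omega
      obtain ⟨j, hj⟩ := Nat.exists_eq_succ_of_ne_zero h2
      rw [hj]
      simp
    · rw [if_neg h1, if_neg h]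

theorem ch_self (k : ℕ) : ch k k = 1 := by
  simp [ch]

/-- a new least member with exponent one -/
theorem D_new {m : Ex n} {U F : Finset (Fin n)} {b : ℤ} (hU : U ⊂ F) (hF : F ≠ Finset.univ)
    (hm : F ∉ m.support) (hl : ∀ H ∈ ab m U, F ⊆ H) :
    D (m + Finsupp.single F 1) U b =
      if (F.card : ℤ) = U.card + b + 1 then D m F 0 else 0 := by
  have hF' : F ∈ ab (m + Finsupp.single F 1) U :=
    mem_ab.2 ⟨mem_support_add.2 (Or.inr rfl), hU, hF⟩
  have hl' : ∀ H ∈ ab (m + Finsupp.single F 1) U, F ⊆ H := by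
    intro H hH
    obtain ⟨h1, h2, h3⟩ := mem_ab.1 hH
    rcases mem_support_add.1 h1 with h1 | h1
    · exact hl H (mem_ab.2 ⟨h1, h2, h3⟩)
    · rw [h1]
  have hc := Finset.card_lt_card hU
  rw [D_least hF' hl', add_single_apply_self, Finsupp.notMem_support_iff.1 hm,
    D_sub m F hF _ F _ rfl (Finset.Subset.refl _)]
  simp only [zero_add, Nat.sub_self, pow_zero, one_mul, Nat.cast_one]
  rw [ch_zero_left]
  by_cases h : (F.card : ℤ) = U.card + b + 1
  · have h0 : b + 1 - ((F.card : ℤ) - U.card) = 0 := by rw [h]; ring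
    have hb : b = ((F.card - U.card - 1 : ℕ) : ℤ) := by omega
    rw [if_pos h, if_pos h0, h0, mul_one]
    conv_lhs =>
      arg 1
      rw [hb]
    rw [ch_self, one_mul]
  · have h0 : ¬ b + 1 - ((F.card : ℤ) - U.card) = 0 := by
      intro h0
      apply h
      linarith
    rw [if_neg h, if_neg h0]
    simp

theorem p_ins : P_INS := by
  intro n m U b
  refine ⟨?_, ?_, ?_, ?_, ?_, ?_⟩
  · intro F hFU hF
    exact D_sub m F hF _ U b rfl hFU
  · intro G hG hl F hUF hFG
    have hG' := mem_ab.1 hG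
    have hF : F ≠ Finset.univ := by
      intro he
      rw [he] at hFG
      exact hFG.2 (Finset.subset_univ _)
    have hm : F ∉ m.support := fun hm => hFG.2 (hl F (mem_ab.2 ⟨hm, hUF, hF⟩))
    rw [D_new hUF hF hm (fun H hH => hFG.1.trans (hl H hH))]
    by_cases h : (F.card : ℤ) = U.card + b + 1
    · rw [if_pos h, if_pos h]
      have hGF : G ∈ ab m F := mem_ab.2 ⟨hG'.1, hFG, hG'.2.2⟩
      have hl' : ∀ H ∈ ab m F, G ⊆ H := by
        intro H hH
        obtain ⟨h1, h2, h3⟩ := mem_ab.1 hH
        exact hl H (mem_ab.2 ⟨h1, hUF.trans h2, h3⟩)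
      have e : (0 : ℤ) + m G - ((G.card : ℤ) - F.card) =
          b + 1 + m G - ((G.card : ℤ) - U.card) := by
        rw [h]; ring
      rw [D_least hGF hl', ch_zero, one_mul, e]
    · rw [if_neg h, if_neg h]
  · intro G hG hl
    have hG' := mem_ab.1 hG
    have hG2 : G ∈ ab (m + Finsupp.single G 1) U :=
      mem_ab.2 ⟨mem_support_add.2 (Or.inr rfl), hG'.2⟩
    have hl' : ∀ H ∈ ab (m + Finsupp.single G 1) U, G ⊆ H := by
      intro H hH
      obtain ⟨h1, h2, h3⟩ := mem_ab.1 hH
      rcases mem_support_add.1 h1 with h1 | h1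
      · exact hl H (mem_ab.2 ⟨h1, h2, h3⟩)
      · rw [h1]
    have e : b + ((m G + 1 : ℕ) : ℤ) - ((G.card : ℤ) - U.card) =
        b + 1 + m G - ((G.card : ℤ) - U.card) := by
      push_cast; ring
    rw [D_least hG2 hl', add_single_apply_self, e,
      D_sub m G hG'.2.2 _ G _ rfl (Finset.Subset.refl _), Nat.add_sub_cancel]
  · intro G hG hl F hGF
    have hG' := mem_ab.1 hG
    have hG2 : G ∈ ab (m + Finsupp.single F 1) U :=
      mem_ab.2 ⟨mem_support_add.2 (Or.inl hG'.1), hG'.2⟩
    have hl' : ∀ H ∈ ab (m + Finsupp.single F 1) U, G ⊆ H := by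
      intro H hH
      obtain ⟨h1, h2, h3⟩ := mem_ab.1 hH
      rcases mem_support_add.1 h1 with h1 | h1
      · exact hl H (mem_ab.2 ⟨h1, h2, h3⟩)
      · rw [h1]
        exact hGF.1
    rw [D_least hG2 hl', add_single_apply_ne hGF.ne]
  · intro h0 F hUF hF
    have hm : F ∉ m.support := by
      intro hm
      have : F ∈ ab m U := mem_ab.2 ⟨hm, hUF, hF⟩
      rw [h0] at this
      exact absurd this (Finset.notMem_empty _)
    rw [D_new hUF hF hm (fun H hH => by rw [h0] at hH; exact absurd hH (Finset.notMem_empty _))]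
    have h1 : ab m F = ∅ := by
      rw [Finset.eq_empty_iff_forall_notMem]
      intro H hH
      obtain ⟨h1, h2, h3⟩ := mem_ab.1 hH
      have : H ∈ ab m U := mem_ab.2 ⟨h1, hUF.trans h2, h3⟩
      rw [h0] at this
      exact absurd this (Finset.notMem_empty _)
    rw [D_top h1, ch_zero, mul_one]
  · intro h0
    have h1 : ab (m + Finsupp.single Finset.univ 1) U = ∅ := by
      rw [Finset.eq_empty_iff_forall_notMem]
      intro H hH
      obtain ⟨h1, h2, h3⟩ := mem_ab.1 hH
      rcases mem_support_add.1 h1 with h1 | h1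
      · have : H ∈ ab m U := mem_ab.2 ⟨h1, h2, h3⟩
        rw [h0] at this
        exact absurd this (Finset.notMem_empty _)
      · exact h3 h1
    rw [D_top h1, add_single_apply_self, pow_succ]
    ring

end Pool.Agent.W2helper95.UC
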